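import Pool.Agent.H23.CR.Stm

/-!
# Crew CR: parts POS and INC
-/

set_option autoImplicit false

namespace Pool.Agent.H23.CR

open Finset Filter Pool.Agent.H999R2.KSat Pool.Agent.H320R2.CT

theorem pos_geom (m : ℕ) : ∑ l ∈ Icc 3 m, (1 / 4 : ℝ) ^ l ≤ 1 / 2 := by
  by_cases hm : 2 ≤ m
  · have key : ∀ m : ℕ, 2 ≤ m → ∑ l ∈ Icc 3 m, (1 / 4 : ℝ) ^ l ≤ 1 / 16 - (1 / 4 : ℝ) ^ m := by
      intro m hm
      induction m, hm using Nat.le_induction with
      | base => norm_num
      | succ k hk ih =>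
        rw [Finset.sum_Icc_succ_top (by omega)]
        have h1 : (1 / 4 : ℝ) ^ (k + 1) = (1 / 4 : ℝ) ^ k * (1 / 4) := pow_succ _ _
        have h2 : 0 < (1 / 4 : ℝ) ^ k := by positivity
        rw [h1] at *
        linarith
    have := key m hm
    have h2 : 0 < (1 / 4 : ℝ) ^ m := by positivity
    linarith
  · rw [Finset.Icc_eq_empty (by omega), Finset.sum_empty]
    norm_num

theorem POS (hC : S_CYC) (hU : S_UNI) : S_POS := by
  refine ⟨2, ?_⟩
  intro n m hn hm
  classical
  have : Nonempty (Ed n) := ⟨⟨(⟨0, by omega⟩, ⟨1, by omega⟩), by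
    intro h
    have := congrArg Fin.val h
    simp at this⟩⟩
  set c : ℝ := 2 / ((n : ℝ) * n - n) with hc
  have hn' : (2 : ℝ) ≤ n := by exact_mod_cast hn
  have hcpos : 0 ≤ c := by
    rw [hc]
    apply div_nonneg (by norm_num)
    nlinarith
  -- pointwise
  have hpt : ∀ F : Fin m → Ed n, 1 - ind ((SolC F : Set (Co n 2)).Nonempty) ≤
      ∑ l ∈ Icc 3 m, ∑ v : Fin l → Fin n, ∑ j : Fin l → Fin m,
        ind (Function.Injective j ∧ ∀ i, jn (F (j i)) (v i) (v (finRotate l i))) := by
    intro F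
    by_cases hF : (SolC F : Set (Co n 2)).Nonempty
    · rw [ind_true hF, sub_self]
      exact Finset.sum_nonneg fun l _ => Finset.sum_nonneg fun v _ =>
        Finset.sum_nonneg fun j _ => ind_nonneg _
    · rw [ind_false hF, sub_zero]
      obtain ⟨l, hl3, hlm, v, j, hj, hv⟩ := hC n m F hF
      calc (1 : ℝ) = ind (Function.Injective j ∧
              ∀ i, jn (F (j i)) (v i) (v (finRotate l i))) := (ind_true ⟨hj, hv⟩).symm
        _ ≤ ∑ j : Fin l → Fin m, ind (Function.Injective j ∧
              ∀ i, jn (F (j i)) (v i) (v (finRotate l i))) :=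
            Finset.single_le_sum (f := fun j : Fin l → Fin m => ind (Function.Injective j ∧
              ∀ i, jn (F (j i)) (v i) (v (finRotate l i)))) (fun _ _ => ind_nonneg _)
              (Finset.mem_univ j)
        _ ≤ ∑ v : Fin l → Fin n, ∑ j : Fin l → Fin m, ind (Function.Injective j ∧
              ∀ i, jn (F (j i)) (v i) (v (finRotate l i))) :=
            Finset.single_le_sum (f := fun v : Fin l → Fin n => ∑ j : Fin l → Fin m,
              ind (Function.Injective j ∧
              ∀ i, jn (F (j i)) (v i) (v (finRotate l i))))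
              (fun _ _ => Finset.sum_nonneg fun _ _ => ind_nonneg _) (Finset.mem_univ v)
        _ ≤ _ :=
            Finset.single_le_sum (f := fun l : ℕ => ∑ v : Fin l → Fin n, ∑ j : Fin l → Fin m,
              ind (Function.Injective j ∧
              ∀ i, jn (F (j i)) (v i) (v (finRotate l i))))
              (fun _ _ => Finset.sum_nonneg fun _ _ => Finset.sum_nonneg fun _ _ =>
                ind_nonneg _) (Finset.mem_Icc.2 ⟨hl3, hlm⟩)
  have h1 : 1 - pc n 2 m ≤ ∑ l ∈ Icc 3 m, ((n : ℝ) * (m * c)) ^ l := by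
    have h2 : E (fun F : Fin m → Ed n => 1 - ind ((SolC F : Set (Co n 2)).Nonempty)) =
        1 - pc n 2 m := by
      rw [E_sub (fun _ => (1 : ℝ)), E_const]
      rfl
    rw [← h2]
    refine (E_mono hpt).trans ?_
    rw [E_sum (Icc 3 m) (fun l (F : Fin m → Ed n) => ∑ v : Fin l → Fin n,
      ∑ j : Fin l → Fin m, ind (Function.Injective j ∧
        ∀ i, jn (F (j i)) (v i) (v (finRotate l i))))]
    refine Finset.sum_le_sum fun l hl => ?_
    rw [E_sum univ (fun (v : Fin l → Fin n) (F : Fin m → Ed n) =>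
      ∑ j : Fin l → Fin m, ind (Function.Injective j ∧
        ∀ i, jn (F (j i)) (v i) (v (finRotate l i))))]
    have h3 : ∀ v : Fin l → Fin n, E (fun F : Fin m → Ed n =>
        ∑ j : Fin l → Fin m, ind (Function.Injective j ∧
        ∀ i, jn (F (j i)) (v i) (v (finRotate l i)))) ≤ (m : ℝ) ^ l * c ^ l := by
      intro v
      rw [E_sum univ (fun (j : Fin l → Fin m) (F : Fin m → Ed n) =>
        ind (Function.Injective j ∧ ∀ i, jn (F (j i)) (v i) (v (finRotate l i))))]
      have h4 : ∀ j : Fin l → Fin m, E (fun F : Fin m → Ed n =>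
          ind (Function.Injective j ∧ ∀ i, jn (F (j i)) (v i) (v (finRotate l i)))) ≤ c ^ l := by
        intro j
        by_cases hj : Function.Injective j
        · refine (E_mono (fun F => ind_mono (fun h => h.2))).trans ?_
          exact hU n m l v (fun i => v (finRotate l i)) j hn hj
        · have : ∀ F : Fin m → Ed n, ind (Function.Injective j ∧
              ∀ i, jn (F (j i)) (v i) (v (finRotate l i))) = 0 :=
            fun F => ind_false (fun h => hj h.1)
          rw [E_congr this, E_zero]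
          positivity
      refine (Finset.sum_le_sum fun j _ => h4 j).trans ?_
      rw [Finset.sum_const, nsmul_eq_mul]
      simp [Finset.card_univ]
    refine (Finset.sum_le_sum fun v _ => h3 v).trans ?_
    rw [Finset.sum_const, nsmul_eq_mul]
    simp [Finset.card_univ, mul_pow]
  have h5 : (n : ℝ) * (m * c) ≤ 1 / 4 := by
    have hm' : 16 * (m : ℝ) ≤ n := by exact_mod_cast hm
    rw [hc, show (n : ℝ) * (m * (2 / ((n : ℝ) * n - n))) =
      ((n : ℝ) * (2 * m)) / ((n : ℝ) * n - n) by ring,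
      show (n : ℝ) * n - n = n * ((n : ℝ) - 1) by ring,
      mul_div_mul_left _ _ (by linarith : (n : ℝ) ≠ 0), div_le_iff₀ (by linarith)]
    linarith
  have h6 : 0 ≤ (n : ℝ) * (m * c) := by positivity
  have h7 : ∑ l ∈ Icc 3 m, ((n : ℝ) * (m * c)) ^ l ≤ ∑ l ∈ Icc 3 m, (1 / 4 : ℝ) ^ l :=
    Finset.sum_le_sum fun l _ => pow_le_pow_left₀ h6 h5 l
  have h8 := pos_geom m
  linarith

theorem pc_two_le_three (n m : ℕ) : pc n 2 m ≤ pc n 3 m := by
  unfold pc
  refine E_mono fun F => ind_mono ?_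
  rintro ⟨σ, hσ⟩
  refine ⟨fun v => Fin.castLE (by norm_num) (σ v), fun j => ?_⟩
  have := hσ j
  unfold pr at this ⊢
  exact fun h => this (Fin.castLE_injective _ h)

theorem INC (hS : S_STP) (hP : S_POS) : S_INC := by
  intro t ht
  have h3 : 1 / 16 ≤ t 3 := by
    by_contra hcon
    push Not at hcon
    obtain ⟨n0, hn0⟩ := hP
    have hlim := (ht 3 le_rfl).2 (1 / 16) hcon
    have hev := (hlim.eventually (gt_mem_nhds (show (0 : ℝ) < 1 / 2 by norm_num))).and
      (eventually_ge_atTop n0)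
    obtain ⟨n, hn1, hn2⟩ := hev.exists
    have hfl : 16 * ⌊(1 / 16 : ℝ) * (n : ℝ)⌋₊ ≤ n := by
      have h4 : ((⌊(1 / 16 : ℝ) * (n : ℝ)⌋₊ : ℕ) : ℝ) ≤ 1 / 16 * n :=
        Nat.floor_le (by positivity)
      have h5 : ((16 * ⌊(1 / 16 : ℝ) * (n : ℝ)⌋₊ : ℕ) : ℝ) ≤ (n : ℝ) := by
        push_cast; linarith
      exact_mod_cast h5
    have h6 := hn0 n _ hn2 hfl
    have h7 := pc_two_le_three n ⌊(1 / 16 : ℝ) * (n : ℝ)⌋₊
    linarith
  have step : ∀ k, 3 ≤ k → 1 / 16 ≤ t k → t k + 1 / 4000 ≤ t (k + 1) := by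
    intro k hk hkt
    obtain ⟨η, hη, hev⟩ := hS k (t k) (by omega) (by linarith) (ht k hk).1
    by_contra hcon
    push Not at hcon
    have h4 : t k + 1 / 4000 ≤ t k + t k / (64 * (1 + 32 * t k)) := by
      have : (1 : ℝ) / 4000 ≤ t k / (64 * (1 + 32 * t k)) := by
        rw [div_le_div_iff₀ (by norm_num) (by nlinarith)]
        nlinarith
      linarith
    have hlim := (ht (k + 1) (by omega)).2 (t k + t k / (64 * (1 + 32 * t k)))
      (lt_of_lt_of_le hcon h4)
    obtain ⟨n, hn1, hn2⟩ := ((hlim.eventually (gt_mem_nhds hη)).and hev).exists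
    linarith
  have all : ∀ k, 3 ≤ k → 1 / 16 ≤ t k := by
    intro k hk
    induction k, hk using Nat.le_induction with
    | base => exact h3
    | succ k hk ih => have := step k hk ih; linarith
  exact ⟨h3, fun k hk => step k hk (all k hk)⟩

end Pool.Agent.H23.CR
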